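import Pool.Agent.Helper41.OA.Defs
import Pool.Agent.Helper41.OA.St.Stubs

/-!
# Project OA, piece OA-9: lower bound of the pairing
-/

set_option autoImplicit false

namespace Pool.Agent.Helper7.OA

open Finset Pool.Agent.Helper41.OA

lemma rt_prim (D : ℕ) (hD : D ≠ 0) : IsPrimitiveRoot (rt D) D := by
  unfold rt
  exact Complex.isPrimitiveRoot_exp D hD

lemma rt_norm (D : ℕ) (hD : D ≠ 0) : ‖rt D‖ = 1 :=
  (rt_prim D hD).norm'_eq_one hD

lemma rt_mul_conj (D : ℕ) (hD : D ≠ 0) : rt D * (starRingEnd ℂ) (rt D) = 1 := by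
  rw [Complex.mul_conj, Complex.normSq_eq_norm_sq, rt_norm D hD]
  norm_num

lemma re_sq (w : ℂ) (hw : ‖w‖ = 1) : (1 + (w ^ 2).re) / 2 ≤ |w.re| := by
  have h1 : w.re ^ 2 + w.im ^ 2 = 1 := by
    have := Complex.normSq_eq_norm_sq w
    rw [hw, Complex.normSq_apply] at this
    nlinarith
  have h2 : (w ^ 2).re = w.re ^ 2 - w.im ^ 2 := by
    rw [pow_two, Complex.mul_re]
    ring
  have h3 : |w.re| ≤ 1 := by
    rw [← hw]
    exact Complex.abs_re_le_norm w
  have h4 : |w.re| ^ 2 = w.re ^ 2 := sq_abs _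
  have h5 := abs_nonneg w.re
  nlinarith

lemma sum_re (d a : ℕ) (ha : a < d) :
    (DD d : ℝ) / 2 ≤ ∑ j ∈ range (DD d), |(rt (DD d) ^ (j * 2 ^ a)).re| := by
  have hD : DD d ≠ 0 := by unfold DD; positivity
  have hw : ∀ j, ‖rt (DD d) ^ (j * 2 ^ a)‖ = 1 := by
    intro j
    rw [norm_pow, rt_norm _ hD, one_pow]
  have hne : rt (DD d) ^ (2 ^ (a + 1)) ≠ 1 := by
    refine (rt_prim _ hD).pow_ne_one_of_pos_of_lt (by positivity) ?_
    unfold DD
    exact Nat.pow_lt_pow_right (by norm_num) (by omega)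
  have hgeo : ∑ j ∈ range (DD d), (rt (DD d) ^ (2 ^ (a + 1))) ^ j = 0 := by
    have hpow : (rt (DD d) ^ (2 ^ (a + 1))) ^ DD d = 1 := by
      rw [← pow_mul, mul_comm, pow_mul, (rt_prim _ hD).pow_eq_one, one_pow]
    have h1 := mul_geom_sum (rt (DD d) ^ (2 ^ (a + 1))) (DD d)
    rw [hpow, sub_self] at h1
    rcases mul_eq_zero.1 h1 with h2 | h2
    · exact absurd (sub_eq_zero.1 h2) hne
    · exact h2
  calc (DD d : ℝ) / 2
      = ∑ j ∈ range (DD d), (1 + ((rt (DD d) ^ (j * 2 ^ a)) ^ 2).re) / 2 := by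
        rw [← Finset.sum_div, Finset.sum_add_distrib]
        have h3 : ∑ j ∈ range (DD d), ((rt (DD d) ^ (j * 2 ^ a)) ^ 2).re = 0 := by
          rw [← Complex.re_sum]
          have h4 : ∑ j ∈ range (DD d), (rt (DD d) ^ (j * 2 ^ a)) ^ 2 = 0 := by
            rw [← hgeo]
            refine Finset.sum_congr rfl fun j _ => ?_
            rw [← pow_mul, ← pow_mul]
            congr 1
            ring
          rw [h4, Complex.zero_re]
        rw [h3]
        simp
    _ ≤ ∑ j ∈ range (DD d), |(rt (DD d) ^ (j * 2 ^ a)).re| :=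
        Finset.sum_le_sum fun j _ => re_sq _ (hw j)

/-- The number of solutions of `i + k = s + m`. -/
def cnt (D m : ℕ) : ℕ :=
  ∑ i ∈ range D, ∑ s ∈ range D, ∑ k ∈ range D, if i + k = s + m then 1 else 0

lemma cnt_ge (D m : ℕ) (hm : m < D) : D * (D + 1) ≤ 2 * cnt D m := by
  let c : ℕ → ℕ := fun i => ∑ s ∈ range D, ∑ k ∈ range D, if i + k = s + m then 1 else 0
  have hc : ∀ i < D, D - (m - i) - (i - m) ≤ c i := by
    intro i hi
    have h1 : ∀ s ∈ range D, (if s ∈ Ico (i - m) (D - (m - i)) then 1 else 0) ≤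
        ∑ k ∈ range D, if i + k = s + m then 1 else 0 := by
      intro s hs
      split_ifs with h
      · rw [mem_Ico] at h
        have h2 : (if i + (s + m - i) = s + m then 1 else 0) ≤
            ∑ k ∈ range D, if i + k = s + m then 1 else 0 :=
          Finset.single_le_sum (f := fun k => if i + k = s + m then 1 else 0)
            (fun k _ => Nat.zero_le _) (by rw [mem_range]; omega)
        rw [if_pos (by omega)] at h2
        exact h2
      · exact Nat.zero_le _
    have h3 := Finset.sum_le_sum h1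
    have h4 : ∑ s ∈ range D, (if s ∈ Ico (i - m) (D - (m - i)) then 1 else 0) =
        D - (m - i) - (i - m) := by
      rw [← Finset.card_filter]
      have h5 : (range D).filter (fun s => s ∈ Ico (i - m) (D - (m - i))) =
          Ico (i - m) (D - (m - i)) := by
        ext s
        simp only [mem_filter, mem_range, mem_Ico]
        omega
      rw [h5, Nat.card_Ico]
    rw [h4] at h3
    exact h3
  have h6 : cnt D m = ∑ i ∈ range D, c i := rfl
  have h7 : 2 * cnt D m = ∑ i ∈ range D, (c i + c (D - 1 - i)) := by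
    rw [Finset.sum_add_distrib, Finset.sum_range_reflect, ← h6]
    ring
  rw [h7]
  calc D * (D + 1) = ∑ _i ∈ range D, (D + 1) := by
        rw [Finset.sum_const, card_range, smul_eq_mul]
    _ ≤ ∑ i ∈ range D, (c i + c (D - 1 - i)) := by
        refine Finset.sum_le_sum fun i hi => ?_
        rw [mem_range] at hi
        have h8 := hc i hi
        have h9 := hc (D - 1 - i) (by omega)
        omega

lemma NN_four (d k : ℕ) : NN d (k + 1) = 4 * NN d k := by
  unfold NN
  rw [pow_succ]
  ring

lemma NN_mono (d : ℕ) {k l : ℕ} (h : k ≤ l) : NN d k ≤ NN d l := by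
  unfold NN
  exact Nat.mul_le_mul_left _ (Nat.pow_le_pow_right (by norm_num) h)

lemma NN_ge (d k : ℕ) : 4 * DD d ≤ NN d k := by
  unfold NN
  exact Nat.le_mul_of_pos_right _ (by positivity)

/-- The values of `α` near the centre of a window. -/
lemma al_near (d κ i s k : ℕ) (hκ : κ < 2 ^ d) (hi : i < DD d) (hs : s < DD d) (hk : k < DD d) :
    al d (i + (NN d κ - s) + k) =
      ∑ a ∈ range d, if i + k = s + 2 ^ a then sgn κ a / (√(d : ℝ) : ℝ) else 0 := by
  have hN := NN_ge d κ
  unfold al
  rw [Finset.sum_eq_single κ]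
  · refine Finset.sum_congr rfl fun a _ => ?_
    refine if_congr ?_ rfl rfl
    omega
  · intro κ' hκ' hne
    refine Finset.sum_eq_zero fun a ha => if_neg ?_
    rw [mem_range] at ha
    have hNN' := NN_ge d κ'
    have h2a : 2 ^ a ≤ DD d := by
      unfold DD
      exact Nat.pow_le_pow_right (by norm_num) (by omega)
    obtain ⟨P, hP⟩ : ∃ P, P = 2 ^ a := ⟨_, rfl⟩
    rw [← hP] at h2a ⊢
    rcases Nat.lt_or_gt_of_ne hne with h | h
    · have h1 : NN d (κ' + 1) ≤ NN d κ := NN_mono d h
      rw [NN_four] at h1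
      generalize NN d κ = A at *
      generalize NN d κ' = B at *
      generalize DD d = C at *
      omega
    · have h1 : NN d (κ + 1) ≤ NN d κ' := NN_mono d h
      rw [NN_four] at h1
      generalize NN d κ = A at *
      generalize NN d κ' = B at *
      generalize DD d = C at *
      omega
  · intro h
    exact absurd (mem_range.2 hκ) h

lemma cf_eq (D j i s k m : ℕ) (hD : D ≠ 0) (h : i + k = s + m) :
    cf D j i s k = rt D ^ (j * m) / D ^ 3 := by
  unfold cf
  congr 1
  rw [← pow_add]
  have h1 : j * i + j * k = j * m + j * s := by rw [← mul_add, h]; ring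
  rw [h1, pow_add, mul_assoc, ← mul_pow, rt_mul_conj D hD, one_pow, mul_one]

/-- OA-9. The pairing of the test polynomial with `α` (uses OA-8). -/
theorem pairing_ge (d : ℕ) (hd : 0 < d) : ∃ M : ℕ, (∀ n, M ≤ n → (Ph d).coeff n = 0) ∧
    √(d : ℝ) / 4 ≤ ‖∑ n ∈ range M, al d n * (Ph d).coeff n‖ := by
  classical
  have hD : DD d ≠ 0 := by unfold DD; positivity
  have hpat : ∀ j, pat d j < 2 ^ d := fun j => (St.pat_spec d j).1
  have hdeg : ∀ j i s k : ℕ, i ∈ range (DD d) → k ∈ range (DD d) →
      i + (NN d (pat d j) - s) + k < NN d (2 ^ d) + 2 * DD d := by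
    intro j i s k hi hk
    rw [mem_range] at hi hk
    have h1 : NN d (pat d j) ≤ NN d (2 ^ d) := NN_mono d (hpat j).le
    omega
  refine ⟨NN d (2 ^ d) + 2 * DD d, ?_, ?_⟩
  · intro n hn
    unfold Ph
    simp only [Polynomial.finsetSum_coeff, Polynomial.coeff_monomial]
    refine Finset.sum_eq_zero fun j _ => Finset.sum_eq_zero fun i hi =>
      Finset.sum_eq_zero fun s _ => Finset.sum_eq_zero fun k hk => if_neg ?_
    have := hdeg j i s k hi hk
    omega
  · set M := NN d (2 ^ d) + 2 * DD d with hM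
    have hs : 0 < √(d : ℝ) := Real.sqrt_pos.2 (by exact_mod_cast hd)
    have hDr : (0 : ℝ) < DD d := by exact_mod_cast Nat.pos_of_ne_zero hD
    -- the pairing
    have h1 : ∑ n ∈ range M, al d n * (Ph d).coeff n =
        ∑ j ∈ range (DD d), ∑ i ∈ range (DD d), ∑ s ∈ range (DD d), ∑ k ∈ range (DD d),
          al d (i + (NN d (pat d j) - s) + k) * cf (DD d) j i s k := by
      let Λ : Polynomial ℂ →ₗ[ℂ] ℂ := ∑ n ∈ range M, al d n • Polynomial.lcoeff ℂ n
      have hΛ : ∀ p : Polynomial ℂ, Λ p = ∑ n ∈ range M, al d n * p.coeff n := by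
        intro p
        simp only [Λ, LinearMap.sum_apply, LinearMap.smul_apply, Polynomial.lcoeff_apply,
          smul_eq_mul]
      rw [← hΛ]
      unfold Ph
      simp only [map_sum]
      refine Finset.sum_congr rfl fun j _ => Finset.sum_congr rfl fun i hi =>
        Finset.sum_congr rfl fun s _ => Finset.sum_congr rfl fun k hk => ?_
      rw [hΛ]
      simp only [Polynomial.coeff_monomial]
      rw [Finset.sum_eq_single (i + (NN d (pat d j) - s) + k)]
      · rw [if_pos rfl]
      · intro n _ hn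
        rw [if_neg (Ne.symm hn), mul_zero]
      · intro h
        exact absurd (mem_range.2 (hdeg j i s k hi hk)) h
    have h2 : ∑ n ∈ range M, al d n * (Ph d).coeff n =
        ∑ j ∈ range (DD d), ∑ a ∈ range d, (sgn (pat d j) a * rt (DD d) ^ (j * 2 ^ a)) *
          ((cnt (DD d) (2 ^ a) : ℝ) / (√(d : ℝ) * (DD d : ℝ) ^ 3) : ℝ) := by
      rw [h1]
      refine Finset.sum_congr rfl fun j _ => ?_
      have h3 : ∀ i ∈ range (DD d), ∀ s ∈ range (DD d), ∀ k ∈ range (DD d),
          al d (i + (NN d (pat d j) - s) + k) * cf (DD d) j i s k =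
          ∑ a ∈ range d, (sgn (pat d j) a * rt (DD d) ^ (j * 2 ^ a)) *
            ((if i + k = s + 2 ^ a then (1 : ℂ) else 0) *
              ((1 / (√(d : ℝ) * (DD d : ℝ) ^ 3) : ℝ) : ℂ)) := by
        intro i hi s hs' k hk
        rw [mem_range] at hi hs' hk
        rw [al_near d _ i s k (hpat j) hi hs' hk, Finset.sum_mul]
        refine Finset.sum_congr rfl fun a _ => ?_
        by_cases h : i + k = s + 2 ^ a
        · rw [if_pos h, if_pos h, cf_eq _ j i s k _ hD h, one_mul]
          have hs1 : ((√(d : ℝ) : ℝ) : ℂ) ≠ 0 := by exact_mod_cast hs.ne'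
          have hD1 : ((DD d : ℕ) : ℂ) ≠ 0 := by exact_mod_cast hD
          push_cast
          field_simp
        · rw [if_neg h, if_neg h]
          ring
      rw [Finset.sum_congr rfl fun i hi => Finset.sum_congr rfl fun s hs' =>
        Finset.sum_congr rfl fun k hk => h3 i hi s hs' k hk]
      -- move the sum over `a` outside
      have h4 : ∀ f : ℕ → ℕ → ℕ → ℕ → ℂ, (∑ i ∈ range (DD d), ∑ s ∈ range (DD d),
          ∑ k ∈ range (DD d), ∑ a ∈ range d, f i s k a) = ∑ a ∈ range d, ∑ i ∈ range (DD d),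
          ∑ s ∈ range (DD d), ∑ k ∈ range (DD d), f i s k a := by
        intro f
        rw [Finset.sum_comm' (s := range d) (t := fun _ => range (DD d))
          (t' := range (DD d)) (s' := fun _ => range d) (by intro x y; tauto)]
        refine Finset.sum_congr rfl fun i _ => ?_
        rw [Finset.sum_comm' (s := range d) (t := fun _ => range (DD d))
          (t' := range (DD d)) (s' := fun _ => range d) (by intro x y; tauto)]
        refine Finset.sum_congr rfl fun s _ => ?_
        exact Finset.sum_comm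
      rw [h4]
      refine Finset.sum_congr rfl fun a _ => ?_
      simp only [← Finset.mul_sum, ← Finset.sum_mul]
      congr 1
      unfold cnt
      push_cast
      simp only [apply_ite Complex.ofReal,
        Complex.ofReal_one, Complex.ofReal_zero]
      ring
    rw [h2]
    have hre : ∀ j a : ℕ, a < d → (sgn (pat d j) a * rt (DD d) ^ (j * 2 ^ a)).re =
        |(rt (DD d) ^ (j * 2 ^ a)).re| := by
      intro j a ha
      have h3 := (St.pat_spec d j).2 a ha
      unfold sgn
      by_cases h : (pat d j).testBit a = true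
      · rw [if_pos h, one_mul, abs_of_nonneg (h3.1 h)]
      · rw [if_neg h, neg_one_mul, Complex.neg_re, abs_of_neg]
        exact not_le.1 fun h4 => h (h3.2 h4)
    have hcnt : ∀ a < d, (DD d : ℝ) ^ 2 / 2 ≤ cnt (DD d) (2 ^ a) := by
      intro a ha
      have h3 := cnt_ge (DD d) (2 ^ a) (by
        unfold DD
        exact Nat.pow_lt_pow_right (by norm_num) (by omega))
      have h4 : (DD d : ℝ) * (DD d + 1) ≤ 2 * cnt (DD d) (2 ^ a) := by exact_mod_cast h3
      nlinarith
    refine le_trans ?_ (Complex.re_le_norm _)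
    rw [Complex.re_sum]
    simp only [Complex.re_sum, Complex.re_mul_ofReal]
    rw [Finset.sum_comm]
    have hterm : ∀ a ∈ range d, 1 / (4 * √(d : ℝ)) ≤
        ∑ j ∈ range (DD d), (sgn (pat d j) a * rt (DD d) ^ (j * 2 ^ a)).re *
          ((cnt (DD d) (2 ^ a) : ℝ) / (√(d : ℝ) * (DD d : ℝ) ^ 3)) := by
      intro a ha
      rw [mem_range] at ha
      rw [← Finset.sum_mul, Finset.sum_congr rfl fun j _ => hre j a ha]
      have h3 := sum_re d a ha
      have h4 := hcnt a ha
      calc 1 / (4 * √(d : ℝ))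
          = (DD d : ℝ) / 2 * ((DD d : ℝ) ^ 2 / 2 / (√(d : ℝ) * (DD d : ℝ) ^ 3)) := by
            field_simp
            norm_num
        _ ≤ (∑ j ∈ range (DD d), |(rt (DD d) ^ (j * 2 ^ a)).re|) *
            ((cnt (DD d) (2 ^ a) : ℝ) / (√(d : ℝ) * (DD d : ℝ) ^ 3)) := by
            refine mul_le_mul h3 ?_ (by positivity) (Finset.sum_nonneg fun _ _ => abs_nonneg _)
            exact div_le_div_of_nonneg_right h4 (by positivity)
    calc √(d : ℝ) / 4 = ∑ _a ∈ range d, 1 / (4 * √(d : ℝ)) := by
          rw [Finset.sum_const, card_range, nsmul_eq_mul]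
          have h5 : (d : ℝ) = √(d : ℝ) * √(d : ℝ) := (Real.mul_self_sqrt (Nat.cast_nonneg d)).symm
          field_simp
          nlinarith
      _ ≤ _ := Finset.sum_le_sum hterm

end Pool.Agent.Helper7.OA
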